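import Pool.Agent.helper45.ZPG.SpecH

/-!
# ZPG, row SGN
-/

set_option autoImplicit false

namespace Pool.Agent.ZPG

open Matrix Pool.Agent.RG Pool.Agent.AT

/-- the determinant is affine in the first sign -/
theorem SGN_det (N : ℕ) (A : Matrix (Fin (N + 1)) (Fin (N + 1)) ℂ) (s : ℂ) (e : Fin N → ℂ) :
    (A + Matrix.diagonal (Fin.cons s e : Fin (N + 1) → ℂ)).det =
      (A + Matrix.diagonal (Fin.cons 0 e : Fin (N + 1) → ℂ)).det +
        s * (A.submatrix Fin.succ Fin.succ + Matrix.diagonal e).det := by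
  rw [Matrix.det_succ_row_zero, Matrix.det_succ_row_zero (A + Matrix.diagonal (Fin.cons 0 e : Fin (N + 1) → ℂ)),
    Fin.sum_univ_succ, Fin.sum_univ_succ]
  have h1 : ∀ (t : ℂ) (j : Fin (N + 1)), (A + Matrix.diagonal (Fin.cons t e : Fin (N + 1) → ℂ)).submatrix Fin.succ j.succAbove
      = (A + Matrix.diagonal (Fin.cons 0 e : Fin (N + 1) → ℂ)).submatrix Fin.succ j.succAbove := by
    intro t j
    ext a b
    simp only [Matrix.submatrix_apply, Matrix.add_apply, Matrix.diagonal_apply]
    by_cases h : a.succ = j.succAbove b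
    · rw [if_pos h, if_pos h, Fin.cons_succ, Fin.cons_succ]
    · rw [if_neg h, if_neg h]
  have h2 : (A + Matrix.diagonal (Fin.cons 0 e : Fin (N + 1) → ℂ)).submatrix Fin.succ (Fin.succAbove 0)
      = A.submatrix Fin.succ Fin.succ + Matrix.diagonal e := by
    ext a b
    simp only [Matrix.submatrix_apply, Matrix.add_apply, Matrix.diagonal_apply, Fin.succAbove_zero, Fin.succ_inj,
      Fin.cons_succ]
  have h3 : ∀ (t : ℂ) (j : Fin N), (A + Matrix.diagonal (Fin.cons t e : Fin (N + 1) → ℂ)) 0 j.succ = A 0 j.succ := by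
    intro t j
    rw [Matrix.add_apply, Matrix.diagonal_apply_ne _ (Fin.succ_ne_zero j).symm, add_zero]
  have h4 : ∀ t : ℂ, (A + Matrix.diagonal (Fin.cons t e : Fin (N + 1) → ℂ)) 0 0 = A 0 0 + t := by
    intro t
    rw [Matrix.add_apply, Matrix.diagonal_apply_eq, Fin.cons_zero]
  simp only [h1 s, h3 s, h3 0, h4 s, h4 0, h2]
  simp only [Fin.val_zero, pow_zero, one_mul]
  ring

theorem SGN : SGN_stmt := by
  intro N
  induction N with
  | zero =>
    intro A
    refine ⟨fun _ => 1, fun i => i.elim0, ?_⟩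
    rw [Matrix.det_fin_zero]
    exact one_ne_zero
  | succ N ih =>
    intro A
    obtain ⟨e, he, hd⟩ := ih (A.submatrix Fin.succ Fin.succ)
    have hall : ∀ s : ℂ, (s = 1 ∨ s = -1) → ∀ i : Fin (N + 1), (Fin.cons s e : Fin (N + 1) → ℂ) i = 1 ∨
        (Fin.cons s e : Fin (N + 1) → ℂ) i = -1 := by
      intro s hs i
      refine Fin.cases ?_ (fun j => ?_) i
      · rw [Fin.cons_zero]; exact hs
      · rw [Fin.cons_succ]; exact he j
    by_cases h : (A + Matrix.diagonal (Fin.cons 1 e : Fin (N + 1) → ℂ)).det = 0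
    · refine ⟨Fin.cons (-1) e, hall (-1) (Or.inr rfl), ?_⟩
      intro h2
      rw [SGN_det] at h h2
      have h3 : (2 : ℂ) * (A.submatrix Fin.succ Fin.succ + Matrix.diagonal e).det = 0 := by
        linear_combination h - h2
      rcases mul_eq_zero.mp h3 with h4 | h4
      · exact two_ne_zero h4
      · exact hd h4
    · exact ⟨Fin.cons 1 e, hall 1 (Or.inl rfl), h⟩

end Pool.Agent.ZPG
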